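import Mathlib

/-!
Heights of products `A(x) H(x^q)` through the sums of the absolute values of the coefficients of `A`
along the residue classes modulo `q`.
-/

set_option autoImplicit false

open Polynomial Finset

namespace Pool.Agent.K9h2.BH

/-- The height of an integer polynomial: the maximum of the absolute values of its coefficients. -/
def height (f : ℤ[X]) : ℕ := f.support.sup fun i => (f.coeff i).natAbs

theorem natAbs_coeff_le_height (f : ℤ[X]) (n : ℕ) : (f.coeff n).natAbs ≤ height f := by
  by_cases h : f.coeff n = 0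
  · simp [h]
  · exact Finset.le_sup (f := fun i => (f.coeff i).natAbs) (mem_support_iff.2 h)

theorem height_le_iff (f : ℤ[X]) (M : ℕ) : height f ≤ M ↔ ∀ n, (f.coeff n).natAbs ≤ M := by
  constructor
  · intro h n
    exact (natAbs_coeff_le_height f n).trans h
  · intro h
    exact Finset.sup_le fun i _ => h i

theorem height_neg (f : ℤ[X]) : height (-f) = height f := by
  simp [height]

/-- The height does not change under units. -/
theorem height_eq_of_associated {f g : ℤ[X]} (h : Associated f g) : height f = height g := by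
  obtain ⟨u, hu⟩ := h
  obtain ⟨c, hc, hcu⟩ := Polynomial.isUnit_iff.1 u.isUnit
  rcases Int.isUnit_iff.1 hc with h1 | h1
  · rw [← hu, ← hcu, h1]; simp
  · rw [← hu, ← hcu, h1]; simp [height_neg]

/-- Sum of the absolute values of the coefficients of `A` over the indices `≤ n` in the class of `n`
modulo `q`. -/
def S (q : ℕ) (A : ℤ[X]) (n : ℕ) : ℕ :=
  ∑ k ∈ (range (n + 1)).filter (q ∣ ·), (A.coeff (n - k)).natAbs

theorem natAbs_coeff_mul_expand_le {q : ℕ} (hq : 0 < q) (A H : ℤ[X]) (n : ℕ) :
    ((A * expand ℤ q H).coeff n).natAbs ≤ S q A n * height H := by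
  have h1 : (A * expand ℤ q H).coeff n =
      ∑ k ∈ range (n + 1), (expand ℤ q H).coeff k * A.coeff (n - k) := by
    rw [mul_comm, coeff_mul, Finset.Nat.sum_antidiagonal_eq_sum_range_succ_mk]
  rw [h1]
  calc (∑ k ∈ range (n + 1), (expand ℤ q H).coeff k * A.coeff (n - k)).natAbs
      ≤ ∑ k ∈ range (n + 1), ((expand ℤ q H).coeff k * A.coeff (n - k)).natAbs :=
        Int.natAbs_sum_le _ _
    _ ≤ ∑ k ∈ range (n + 1), (if q ∣ k then (A.coeff (n - k)).natAbs * height H else 0) := by
        refine Finset.sum_le_sum fun k _ => ?_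
        rw [coeff_expand hq]
        split_ifs with h
        · rw [Int.natAbs_mul, mul_comm]
          exact Nat.mul_le_mul_left _ (natAbs_coeff_le_height _ _)
        · simp
    _ = S q A n * height H := by
        rw [S, Finset.sum_mul, Finset.sum_filter]

theorem height_mul_expand_le {q : ℕ} (hq : 0 < q) (A H : ℤ[X]) (M : ℕ) (hA : ∀ n, S q A n ≤ M) :
    height (A * expand ℤ q H) ≤ M * height H := by
  rw [height_le_iff]
  intro n
  exact (natAbs_coeff_mul_expand_le hq A H n).trans (Nat.mul_le_mul_right _ (hA n))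

theorem S_add (q : ℕ) (A B : ℤ[X]) (n : ℕ) : S q (A + B) n ≤ S q A n + S q B n := by
  unfold S
  rw [← Finset.sum_add_distrib]
  refine Finset.sum_le_sum fun k _ => ?_
  rw [coeff_add]
  exact Int.natAbs_add_le _ _

theorem S_neg (q : ℕ) (A : ℤ[X]) (n : ℕ) : S q (-A) n = S q A n := by
  simp [S]

theorem S_sub (q : ℕ) (A B : ℤ[X]) (n : ℕ) : S q (A - B) n ≤ S q A n + S q B n := by
  rw [sub_eq_add_neg]
  exact (S_add q A (-B) n).trans (by rw [S_neg])

theorem S_sum (q : ℕ) {ι : Type} (s : Finset ι) (A : ι → ℤ[X]) (n : ℕ) :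
    S q (∑ i ∈ s, A i) n ≤ ∑ i ∈ s, S q (A i) n := by
  classical
  induction s using Finset.induction_on with
  | empty => simp [S]
  | insert a s ha ih =>
    rw [Finset.sum_insert ha, Finset.sum_insert ha]
    exact (S_add q _ _ n).trans (Nat.add_le_add_left ih _)

theorem S_X_pow_mul (q : ℕ) (A : ℤ[X]) (i n : ℕ) :
    S q (X ^ i * A) n = if i ≤ n then S q A (n - i) else 0 := by
  unfold S
  split_ifs with h
  · symm
    have hsub : (range (n - i + 1)).filter (q ∣ ·) ⊆ (range (n + 1)).filter (q ∣ ·) := by
      intro k hk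
      simp only [mem_filter, mem_range] at hk ⊢
      exact ⟨by omega, hk.2⟩
    rw [← Finset.sum_subset hsub]
    · refine Finset.sum_congr rfl fun k hk => ?_
      simp only [mem_filter, mem_range] at hk
      rw [coeff_X_pow_mul', if_pos (by omega)]
      congr 2
      omega
    · intro k hk hk'
      simp only [mem_filter, mem_range, not_and] at hk hk'
      have : ¬ k < n - i + 1 := fun h' => hk' h' hk.2
      rw [coeff_X_pow_mul', if_neg (by omega)]
      rfl
  · refine Finset.sum_eq_zero fun k _ => ?_
    rw [coeff_X_pow_mul', if_neg (by omega)]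
    rfl

/-- A polynomial of degree `< q` whose coefficients have absolute value `≤ 1`. -/
theorem S_le_one {q : ℕ} (A : ℤ[X]) (h0 : ∀ n, q ≤ n → A.coeff n = 0)
    (h1 : ∀ n, (A.coeff n).natAbs ≤ 1) (n : ℕ) : S q A n ≤ 1 := by
  unfold S
  by_cases hq : q = 0
  · have : A = 0 := by
      ext m
      exact h0 m (by omega)
    simp [this]
  have hq' : 0 < q := Nat.pos_of_ne_zero hq
  have hmem : n - n % q ∈ (range (n + 1)).filter (q ∣ ·) := by
    simp only [mem_filter, mem_range]
    exact ⟨by omega, Nat.dvd_sub_mod n⟩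
  rw [← Finset.add_sum_erase _ _ hmem, Finset.sum_eq_zero, add_zero]
  · exact h1 _
  · intro k hk
    simp only [mem_erase, mem_filter, mem_range] at hk
    obtain ⟨hne, hlt, c, rfl⟩ := hk
    rw [h0]
    · rfl
    · by_contra hcon
      push Not at hcon
      apply hne
      have h2 : n / q = c := by
        have := Nat.div_add_mod n q
        apply le_antisymm
        · rw [← Nat.lt_succ_iff, Nat.div_lt_iff_lt_mul hq']
          have : n < q * c + q := by omega
          calc n < q * c + q := this
            _ = c.succ * q := by rw [Nat.succ_mul, mul_comm]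
        · rw [Nat.le_div_iff_mul_le hq', mul_comm]
          omega
      have := Nat.div_add_mod n q
      rw [h2] at this
      omega

theorem S_one_le {q : ℕ} (hq : 0 < q) (n : ℕ) : S q 1 n ≤ 1 := by
  refine S_le_one 1 (fun m hm => ?_) (fun m => ?_) n
  · rw [coeff_one, if_neg (by omega)]
  · rw [coeff_one]; split_ifs <;> simp

theorem S_X_pow_le {q : ℕ} (hq : 0 < q) (i n : ℕ) : S q (X ^ i) n ≤ 1 := by
  have := S_X_pow_mul q 1 i n
  rw [mul_one] at this
  rw [this]
  split_ifs
  · exact S_one_le hq _
  · exact Nat.zero_le _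

theorem S_X_pow_eq_zero {q : ℕ} (i n : ℕ) (h : ¬ i ≡ n [MOD q]) : S q (X ^ i) n = 0 := by
  unfold S
  refine Finset.sum_eq_zero fun k hk => ?_
  simp only [mem_filter, mem_range] at hk
  rw [coeff_X_pow, if_neg]
  · rfl
  · intro hcon
    apply h
    have h1 : n = i + k := by omega
    rw [h1]
    have := (Nat.modEq_zero_iff_dvd.2 hk.2).symm
    simpa using Nat.ModEq.add_left i this

theorem S_geom_le {q m : ℕ} (hm : m ≤ q) (n : ℕ) : S q (∑ i ∈ range m, X ^ i) n ≤ 1 := by
  refine S_le_one _ (fun k hk => ?_) (fun k => ?_) n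
  · rw [finset_sum_coeff]
    refine Finset.sum_eq_zero fun i hi => ?_
    rw [coeff_X_pow, if_neg]
    have := Finset.mem_range.1 hi
    omega
  · rw [finset_sum_coeff]
    simp only [coeff_X_pow]
    rw [Finset.sum_ite_eq]
    split_ifs <;> simp

end Pool.Agent.K9h2.BH
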