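import Pool.Agent.K9h2.BH.Small

/-!
Divisors of `x^n - 1` are products of cyclotomic polynomials; splitting off the part with index
divisible by `q^2`.
-/

set_option autoImplicit false

open Polynomial Finset

namespace Pool.Agent.K9h2.BH

variable {p q b : ℕ}

/-- A divisor of a product of irreducible elements is associated to a subproduct. -/
theorem exists_subset_associated {R ι : Type*} [CommRing R] [IsDomain R] [DecompositionMonoid R]
    [DecidableEq ι] (g : ι → R) (s : Finset ι) (hg : ∀ i ∈ s, Irreducible (g i)) (f : R)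
    (hf : f ∣ ∏ i ∈ s, g i) : ∃ T ⊆ s, Associated f (∏ i ∈ T, g i) := by
  induction s using Finset.induction_on generalizing f with
  | empty =>
    refine ⟨∅, le_rfl, ?_⟩
    simp only [Finset.prod_empty] at hf ⊢
    exact associated_one_iff_isUnit.2 (isUnit_of_dvd_one hf)
  | insert a s ha ih =>
    rw [Finset.prod_insert ha] at hf
    obtain ⟨f1, f2, h1, h2, rfl⟩ := exists_dvd_and_dvd_of_dvd_mul hf
    obtain ⟨T, hT, hTa⟩ := ih (fun i hi => hg i (Finset.mem_insert_of_mem hi)) f2 h2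
    have haT : a ∉ T := fun h => ha (hT h)
    rcases (hg a (Finset.mem_insert_self a s)).dvd_iff.1 h1 with hu | hass
    · refine ⟨T, hT.trans (Finset.subset_insert a s), ?_⟩
      have := Associated.mul_mul (associated_one_iff_isUnit.2 hu) hTa
      rwa [one_mul] at this
    · refine ⟨insert a T, Finset.insert_subset_insert a hT, ?_⟩
      rw [Finset.prod_insert haT]
      exact Associated.mul_mul hass.symm hTa

/-- Divisors of `x^n - 1` in `ℤ[x]`. -/
theorem dvd_X_pow_sub_one {n : ℕ} (hn : 0 < n) (f : ℤ[X]) (hf : f ∣ X ^ n - 1) :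
    ∃ T ⊆ n.divisors, Associated f (∏ d ∈ T, cyclotomic d ℤ) := by
  rw [← prod_cyclotomic_eq_X_pow_sub_one hn ℤ] at hf
  refine exists_subset_associated _ _ (fun d hd => ?_) f hf
  exact cyclotomic.irreducible (Nat.pos_of_mem_divisors hd)

theorem prod_dvd_X_pow_sub_one {n : ℕ} (hn : 0 < n) (T : Finset ℕ) (hT : T ⊆ n.divisors) :
    (∏ d ∈ T, cyclotomic d ℤ) ∣ X ^ n - 1 := by
  rw [← prod_cyclotomic_eq_X_pow_sub_one hn ℤ]
  exact Finset.prod_dvd_prod_of_subset _ _ _ hT

/-- The indices `d` dividing `p q^(b-1)` and divisible by `q`. -/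
def D (p q b : ℕ) : Finset ℕ := (p * q ^ (b - 1)).divisors.filter (q ∣ ·)

theorem mem_small (hp : p.Prime) (hq : q.Prime) {d : ℕ} (hd : d ∣ p * q ^ b) (h : ¬ q ^ 2 ∣ d) :
    d = 1 ∨ d = p ∨ d = q ∨ d = p * q := by
  obtain ⟨u, v, hu, hv, rfl⟩ := (Nat.dvd_mul.1 hd : _)
  obtain ⟨k, hk, rfl⟩ := (Nat.dvd_prime_pow hq).1 hv
  have hk1 : k ≤ 1 := by
    by_contra hcon
    push Not at hcon
    exact h ((pow_dvd_pow q hcon).trans (dvd_mul_left _ _))
  rcases (Nat.dvd_prime hp).1 hu with rfl | rfl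
  · interval_cases k
    · left; simp
    · right; right; left; simp
  · interval_cases k
    · right; left; simp
    · right; right; right; simp

theorem prod_large (hq : q.Prime) (T : Finset ℕ) (hT : T ⊆ (p * q ^ b).divisors)
    (hT2 : ∀ d ∈ T, q ^ 2 ∣ d) (hb : 1 ≤ b) :
    ∃ U ⊆ D p q b, ∏ d ∈ T, cyclotomic d ℤ = expand ℤ q (∏ e ∈ U, cyclotomic e ℤ) := by
  have hq0 := hq.pos
  have hdiv : ∀ d ∈ T, d = (d / q) * q := by
    intro d hd
    exact (Nat.div_mul_cancel ((dvd_pow_self q two_ne_zero).trans (hT2 d hd))).symm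
  have hqd : ∀ d ∈ T, q ∣ d / q := by
    intro d hd
    obtain ⟨c, hc⟩ := hT2 d hd
    refine ⟨c, ?_⟩
    rw [hc, pow_two, mul_assoc, Nat.mul_div_cancel_left _ hq0]
  have hinj : Set.InjOn (fun d => d / q) (T : Set ℕ) := by
    intro d hd e he hde
    have hd' : d = (d / q) * q := hdiv d hd
    have he' : e = (e / q) * q := hdiv e he
    simp only at hde
    rw [hd', he', hde]
  refine ⟨T.image (fun d => d / q), ?_, ?_⟩
  · intro e he
    obtain ⟨d, hd, rfl⟩ := Finset.mem_image.1 he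
    have h1 := Nat.mem_divisors.1 (hT hd)
    have h2 : (p * q ^ b) = (p * q ^ (b - 1)) * q := by
      obtain ⟨c, rfl⟩ : ∃ c, b = c + 1 := ⟨b - 1, by omega⟩
      rw [Nat.add_sub_cancel, pow_succ, mul_assoc]
    unfold D
    rw [Finset.mem_filter, Nat.mem_divisors]
    refine ⟨⟨?_, ?_⟩, hqd d hd⟩
    · have h3 := h1.1
      rw [h2, hdiv d hd] at h3
      exact Nat.dvd_of_mul_dvd_mul_right hq0 h3
    · intro h0
      apply h1.2
      rw [h2, h0, zero_mul]
  · rw [Finset.prod_image hinj, map_prod]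
    refine Finset.prod_congr rfl fun d hd => ?_
    rw [cyclotomic_expand_eq_cyclotomic hq (hqd d hd) ℤ, ← hdiv d hd]

/-- Upper bound for the heights of the divisors of `x^(p q^b) - 1`. -/
theorem height_le (hp : p.Prime) (hq : q.Prime) (hpq : p < q) (hb : 1 ≤ b) (f : ℤ[X])
    (hf : f ∣ X ^ (p * q ^ b) - 1) :
    ∃ U ⊆ D p q b, height f ≤ p * height (∏ e ∈ U, cyclotomic e ℤ) := by
  have hn : 0 < p * q ^ b := Nat.mul_pos hp.pos (pow_pos hq.pos b)
  obtain ⟨T, hT, hass⟩ := dvd_X_pow_sub_one hn f hf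
  obtain ⟨U, hU, hUe⟩ := prod_large (p := p) (b := b) hq (T.filter (q ^ 2 ∣ ·))
    ((Finset.filter_subset _ _).trans hT) (fun d hd => (Finset.mem_filter.1 hd).2) hb
  refine ⟨U, hU, ?_⟩
  rw [height_eq_of_associated hass]
  have hsplit : ∏ d ∈ T, cyclotomic d ℤ =
      (∏ d ∈ T.filter (¬ q ^ 2 ∣ ·), cyclotomic d ℤ) * expand ℤ q (∏ e ∈ U, cyclotomic e ℤ) := by
    rw [← hUe, mul_comm]
    exact (Finset.prod_filter_mul_prod_filter_not T (q ^ 2 ∣ ·) _).symm
  rw [hsplit]
  refine height_mul_expand_le hq.pos _ _ p fun n => ?_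
  refine S_prod_le hp hq hpq _ (fun d hd => ?_) n
  rw [Finset.mem_filter] at hd
  exact mem_small hp hq (Nat.dvd_of_mem_divisors (hT hd.1)) hd.2

theorem coeff_geom_mul_expand (hq : 0 < q) (H : ℤ[X]) (n : ℕ) :
    ((∑ i ∈ range q, (X : ℤ[X]) ^ i) * expand ℤ q H).coeff n = H.coeff (n / q) := by
  rw [Finset.sum_mul, finsetSum_coeff]
  simp only [coeff_X_pow_mul']
  rw [Finset.sum_eq_single (n % q)]
  · rw [if_pos (Nat.mod_le n q), coeff_expand hq, if_pos (Nat.dvd_sub_mod n)]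
    congr 1
    have h := Nat.div_add_mod n q
    have h2 : n - n % q = q * (n / q) := by omega
    rw [h2, Nat.mul_div_cancel_left _ hq]
  · intro i hi hne
    split_ifs with h
    · rw [coeff_expand hq, if_neg]
      rintro ⟨c, hc⟩
      apply hne
      have h1 : n = i + q * c := by omega
      rw [h1, Nat.add_mul_mod_self_left, Nat.mod_eq_of_lt (Finset.mem_range.1 hi)]
    · rfl
  · intro h
    exact absurd (Finset.mem_range.2 (Nat.mod_lt n hq)) h

theorem coeff_lower (hq : 0 < q) (hp : 0 < p) (hpq : p ≤ q) (H : ℤ[X]) (m : ℕ) :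
    ((∑ i ∈ range p, (X : ℤ[X]) ^ i) * ((∑ i ∈ range q, (X : ℤ[X]) ^ i) * expand ℤ q H)).coeff
      (p - 1 + q * m) = p * H.coeff m := by
  rw [Finset.sum_mul, finsetSum_coeff]
  simp only [coeff_X_pow_mul', coeff_geom_mul_expand hq]
  have : ∀ i ∈ range p, (if i ≤ p - 1 + q * m then H.coeff ((p - 1 + q * m - i) / q) else 0) =
      H.coeff m := by
    intro i hi
    have hi' := Finset.mem_range.1 hi
    rw [if_pos (by omega)]
    congr 1
    have h1 : p - 1 + q * m - i = (p - 1 - i) + q * m := by omega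
    rw [h1, Nat.add_mul_div_left _ _ hq, Nat.div_eq_of_lt (by omega), zero_add]
  rw [Finset.sum_congr rfl this]
  simp

/-- The lower bound. -/
theorem le_height (hp : p.Prime) (hq : q.Prime) (hpq : p < q) (hb : 1 ≤ b) (U : Finset ℕ)
    (hU : U ⊆ D p q b) :
    ∃ f : ℤ[X], f ∣ X ^ (p * q ^ b) - 1 ∧ p * height (∏ e ∈ U, cyclotomic e ℤ) ≤ height f := by
  have hq0 := hq.pos
  have hn : 0 < p * q ^ b := Nat.mul_pos hp.pos (pow_pos hq.pos b)
  have hsucc : (p * q ^ b) = (p * q ^ (b - 1)) * q := by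
    obtain ⟨c, rfl⟩ : ∃ c, b = c + 1 := ⟨b - 1, by omega⟩
    rw [Nat.add_sub_cancel, pow_succ, mul_assoc]
  set V : Finset ℕ := U.image (· * q) with hV
  have hVmem : ∀ d ∈ V, q ^ 2 ∣ d ∧ d ∣ p * q ^ b := by
    intro d hd
    obtain ⟨e, he, rfl⟩ := Finset.mem_image.1 hd
    have h1 := hU he
    unfold D at h1
    rw [Finset.mem_filter, Nat.mem_divisors] at h1
    refine ⟨?_, ?_⟩
    · rw [pow_two]; exact Nat.mul_dvd_mul h1.2 dvd_rfl
    · rw [hsucc]; exact Nat.mul_dvd_mul h1.1.1 dvd_rfl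
  have hpV : p ∉ V := by
    intro h
    have h1 := (hVmem p h).1
    have h2 : q ∣ p := (dvd_pow_self q two_ne_zero).trans h1
    exact hpq.ne' ((Nat.prime_dvd_prime_iff_eq hq hp).1 h2)
  have hqV : q ∉ V := by
    intro h
    have h1 := Nat.le_of_dvd hq0 (hVmem q h).1
    have := hq.two_le
    nlinarith
  refine ⟨∏ d ∈ insert p (insert q V), cyclotomic d ℤ, ?_, ?_⟩
  · apply prod_dvd_X_pow_sub_one hn
    intro d hd
    rw [Nat.mem_divisors]
    refine ⟨?_, hn.ne'⟩
    rcases Finset.mem_insert.1 hd with rfl | hd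
    · exact dvd_mul_right _ _
    rcases Finset.mem_insert.1 hd with rfl | hd
    · exact (dvd_pow_self _ (by omega)).mul_left _
    · exact (hVmem d hd).2
  · have hprod : ∏ d ∈ insert p (insert q V), cyclotomic d ℤ =
        (∑ i ∈ range p, (X : ℤ[X]) ^ i) * ((∑ i ∈ range q, (X : ℤ[X]) ^ i) *
          expand ℤ q (∏ e ∈ U, cyclotomic e ℤ)) := by
      rw [Finset.prod_insert, Finset.prod_insert hqV, ← geomX hp, ← geomX hq, map_prod, hV,
        Finset.prod_image]
      · congr 2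
        refine Finset.prod_congr rfl fun e he => ?_
        have h1 := hU he
        unfold D at h1
        rw [Finset.mem_filter] at h1
        rw [cyclotomic_expand_eq_cyclotomic hq h1.2 ℤ]
      · intro x _ y _ hxy
        exact Nat.eq_of_mul_eq_mul_right hq0 hxy
      · rw [Finset.mem_insert, not_or]
        exact ⟨hpq.ne, hpV⟩
    rw [hprod]
    set H := ∏ e ∈ U, cyclotomic e ℤ with hH
    by_cases h0 : H.support.Nonempty
    · obtain ⟨m, _, hm⟩ := Finset.exists_mem_eq_sup H.support h0 (fun i => (H.coeff i).natAbs)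
      have hm' : height H = (H.coeff m).natAbs := hm
      rw [hm']
      have h1 := natAbs_coeff_le_height ((∑ i ∈ range p, (X : ℤ[X]) ^ i) *
        ((∑ i ∈ range q, (X : ℤ[X]) ^ i) * expand ℤ q H)) (p - 1 + q * m)
      rw [coeff_lower hq0 hp.pos hpq.le, Int.natAbs_mul, Int.natAbs_natCast] at h1
      exact h1
    · have : height H = 0 := by
        unfold height
        rw [Finset.not_nonempty_iff_eq_empty.1 h0]
        rfl
      rw [this, mul_zero]
      exact Nat.zero_le _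

/-- `B n` is the greatest height of a divisor of `x^n - 1` in `ℤ[x]`. -/
noncomputable def B (n : ℕ) : ℕ := sSup {h : ℕ | ∃ f : ℤ[X], f ∣ X ^ n - 1 ∧ height f = h}

theorem main (p q b : ℕ) (hp : p.Prime) (hq : q.Prime) (hpq : p < q) (hb : 1 ≤ b) :
    ∃ M : ℕ,
      IsGreatest {h : ℕ | ∃ U ⊆ (p * q ^ (b - 1)).divisors.filter (q ∣ ·),
        height (∏ e ∈ U, cyclotomic e ℤ) = h} M ∧
      IsGreatest {h : ℕ | ∃ f : ℤ[X], f ∣ X ^ (p * q ^ b) - 1 ∧ height f = h} (B (p * q ^ b)) ∧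
      B (p * q ^ b) = p * M := by
  classical
  obtain ⟨U0, hU0, hmax⟩ := Finset.exists_max_image (D p q b).powerset
    (fun U => height (∏ e ∈ U, cyclotomic e ℤ)) ⟨∅, Finset.empty_mem_powerset _⟩
  rw [Finset.mem_powerset] at hU0
  have hgr : IsGreatest {h : ℕ | ∃ f : ℤ[X], f ∣ X ^ (p * q ^ b) - 1 ∧ height f = h}
      (p * height (∏ e ∈ U0, cyclotomic e ℤ)) := by
    have hub : ∀ f : ℤ[X], f ∣ X ^ (p * q ^ b) - 1 →
        height f ≤ p * height (∏ e ∈ U0, cyclotomic e ℤ) := by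
      intro f hf
      obtain ⟨U, hU, hle⟩ := height_le hp hq hpq hb f hf
      exact hle.trans (Nat.mul_le_mul_left _ (hmax U (Finset.mem_powerset.2 hU)))
    constructor
    · obtain ⟨f, hf, hle⟩ := le_height hp hq hpq hb U0 hU0
      exact ⟨f, hf, le_antisymm (hub f hf) hle⟩
    · rintro h ⟨f, hf, rfl⟩
      exact hub f hf
  have hB : B (p * q ^ b) = p * height (∏ e ∈ U0, cyclotomic e ℤ) := hgr.csSup_eq
  refine ⟨height (∏ e ∈ U0, cyclotomic e ℤ), ⟨⟨U0, hU0, rfl⟩, ?_⟩, ?_, hB⟩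
  · rintro h ⟨U, hU, rfl⟩
    exact hmax U (Finset.mem_powerset.2 hU)
  · rw [hB]; exact hgr

end Pool.Agent.K9h2.BH
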