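import Pool.Agent.K9h2.BH.Special

/-!
The residue class sums of all sixteen products of distinct members of
`Φ_1, Φ_p, Φ_q, Φ_{pq}` are at most `p`.
-/

set_option autoImplicit false

open Polynomial Finset

namespace Pool.Agent.K9h2.BH

variable {p q : ℕ}

theorem geomX (hq : q.Prime) : cyclotomic q ℤ = ∑ i ∈ range q, (X : ℤ[X]) ^ i := by
  haveI := Fact.mk hq
  exact cyclotomic_prime ℤ q

theorem S_X_sub_one_mul_le (q : ℕ) (A : ℤ[X]) (M : ℕ) (h : ∀ n, S q A n ≤ M) (n : ℕ) :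
    S q ((X - 1) * A) n ≤ 2 * M := by
  have h0 : S q ((X - 1) * A) n ≤ S q (X ^ 1 * A) n + S q A n := by
    rw [sub_mul, one_mul, pow_one]
    exact S_sub _ _ _ _
  rw [S_X_pow_mul] at h0
  have h1 := h n
  split_ifs at h0
  · have h2 := h (n - 1)
    omega
  · omega

theorem S_X_pow_mul_le (q : ℕ) (A : ℤ[X]) (M : ℕ) (h : ∀ n, S q A n ≤ M) (i n : ℕ) :
    S q (X ^ i * A) n ≤ M := by
  rw [S_X_pow_mul]
  split_ifs
  · exact h _
  · exact Nat.zero_le _

theorem S_phi_q (hq : q.Prime) (n : ℕ) : S q (cyclotomic q ℤ) n ≤ 1 := by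
  rw [geomX hq]
  exact S_geom_le le_rfl n

theorem S_phi_p (hp : p.Prime) (hpq : p < q) (n : ℕ) : S q (cyclotomic p ℤ) n ≤ 1 := by
  rw [geomX hp]
  exact S_geom_le hpq.le n

theorem S_phi_p_phi_q (hp : p.Prime) (hq : q.Prime) (n : ℕ) :
    S q (cyclotomic p ℤ * cyclotomic q ℤ) n ≤ p := by
  rw [geomX hp, Finset.sum_mul]
  refine (S_sum q _ _ n).trans ?_
  calc ∑ i ∈ range p, S q (X ^ i * cyclotomic q ℤ) n ≤ ∑ i ∈ range p, 1 :=
        Finset.sum_le_sum fun i _ => S_X_pow_mul_le q _ 1 (S_phi_q hq) i n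
    _ = p := by simp

theorem X_sub_one_mul_phi (hp : p.Prime) : (X - 1) * cyclotomic p ℤ = X ^ p - 1 := by
  haveI := Fact.mk hp
  rw [mul_comm]
  exact cyclotomic_prime_mul_X_sub_one ℤ p

theorem S_one_sub (A : ℤ[X]) (i n : ℕ) (h : ∀ n, S q A n ≤ 1) :
    S q ((X ^ i - 1) * A) n ≤ 2 := by
  have h0 : S q ((X ^ i - 1) * A) n ≤ S q (X ^ i * A) n + S q A n := by
    rw [sub_mul, one_mul]
    exact S_sub _ _ _ _
  have h1 := S_X_pow_mul_le q A 1 h i n
  have h2 := h n
  omega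

theorem phi_p_mul (hp : p.Prime) (hq : q.Prime) (hpq : p ≠ q) :
    cyclotomic p ℤ * cyclotomic (p * q) ℤ = ∑ i ∈ range p, (X : ℤ[X]) ^ (q * i) := by
  have h1 : expand ℤ q (cyclotomic p ℤ) = cyclotomic (p * q) ℤ * cyclotomic p ℤ :=
    cyclotomic_expand_eq_cyclotomic_mul hq
      (fun h => hpq ((Nat.prime_dvd_prime_iff_eq hq hp).1 h).symm) ℤ
  rw [mul_comm, ← h1, geomX hp, map_sum]
  refine Finset.sum_congr rfl fun i _ => ?_
  rw [map_pow, expand_X, ← pow_mul]

theorem phi_q_mul (hp : p.Prime) (hq : q.Prime) (hpq : p ≠ q) :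
    cyclotomic q ℤ * cyclotomic (p * q) ℤ = ∑ i ∈ range q, (X : ℤ[X]) ^ (p * i) := by
  rw [mul_comm p q]
  exact phi_p_mul hq hp hpq.symm

theorem S_phi_p_phi_pq (hp : p.Prime) (hq : q.Prime) (hpq : p ≠ q) (n : ℕ) :
    S q (cyclotomic p ℤ * cyclotomic (p * q) ℤ) n ≤ p := by
  rw [phi_p_mul hp hq hpq]
  refine (S_sum q _ _ n).trans ?_
  calc ∑ i ∈ range p, S q (X ^ (q * i)) n ≤ ∑ i ∈ range p, 1 :=
        Finset.sum_le_sum fun i _ => S_X_pow_le hq.pos _ n
    _ = p := by simp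

theorem S_phi_one_p_pq (hp : p.Prime) (hq : q.Prime) (hpq : p ≠ q) (n : ℕ) :
    S q ((X - 1) * (cyclotomic p ℤ * cyclotomic (p * q) ℤ)) n ≤ p := by
  rw [phi_p_mul hp hq hpq, Finset.mul_sum]
  refine (S_sum q _ _ n).trans ?_
  calc ∑ i ∈ range p, S q ((X - 1) * X ^ (q * i)) n ≤ ∑ i ∈ range p, 1 := by
        refine Finset.sum_le_sum fun i _ => ?_
        have e : ((X : ℤ[X]) - 1) * X ^ (q * i) = X ^ (q * i + 1) - X ^ (q * i) := by ring
        rw [e]
        refine (S_sub q _ _ n).trans ?_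
        by_cases h : q * i ≡ n [MOD q]
        · have h1 : ¬ (q * i + 1) ≡ n [MOD q] := by
            intro h2
            have h3 : q * i + 1 ≡ q * i + 0 [MOD q] := h2.trans h.symm
            have h4 : 1 ≡ 0 [MOD q] := Nat.ModEq.add_left_cancel' _ h3
            have h5 := (Nat.modEq_zero_iff_dvd.1 h4)
            have := hq.one_lt
            have := Nat.le_of_dvd one_pos h5
            omega
          rw [S_X_pow_eq_zero _ _ h1, zero_add]
          exact S_X_pow_le hq.pos _ n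
        · rw [S_X_pow_eq_zero _ _ h, add_zero]
          exact S_X_pow_le hq.pos _ n
    _ = p := by simp

theorem S_phi_q_phi_pq (hp : p.Prime) (hq : q.Prime) (hpq : p ≠ q) (n : ℕ) :
    S q (cyclotomic q ℤ * cyclotomic (p * q) ℤ) n ≤ 1 := by
  rw [phi_q_mul hp hq hpq]
  refine (S_sum q _ _ n).trans ?_
  have hcop : Nat.Coprime q p := ((Nat.coprime_primes hp hq).2 hpq).symm
  by_cases hex : ∃ j ∈ range q, p * j ≡ n [MOD q]
  · obtain ⟨j, hj, hjn⟩ := hex
    rw [← Finset.add_sum_erase _ _ hj, Finset.sum_eq_zero, add_zero]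
    · exact S_X_pow_le hq.pos _ n
    · intro i hi
      simp only [mem_erase, mem_range] at hi hj
      apply S_X_pow_eq_zero
      intro hcon
      apply hi.1
      have h1 : p * i ≡ p * j [MOD q] := hcon.trans hjn.symm
      have h2 : i ≡ j [MOD q] := Nat.ModEq.cancel_left_of_coprime hcop h1
      exact Nat.ModEq.eq_of_lt_of_lt h2 hi.2 hj
  · rw [Finset.sum_eq_zero]
    · exact Nat.zero_le _
    · intro i hi
      apply S_X_pow_eq_zero
      intro hcon
      exact hex ⟨i, hi, hcon⟩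

theorem S_phi_p_q_pq (hp : p.Prime) (hq : q.Prime) (hpq : p ≠ q) (n : ℕ) :
    S q (cyclotomic p ℤ * cyclotomic q ℤ * cyclotomic (p * q) ℤ) n ≤ p := by
  have e : cyclotomic p ℤ * cyclotomic q ℤ * cyclotomic (p * q) ℤ =
      ∑ i ∈ range p, (X : ℤ[X]) ^ (q * i) * cyclotomic q ℤ := by
    rw [← Finset.sum_mul, ← phi_p_mul hp hq hpq]; ring
  rw [e]
  refine (S_sum q _ _ n).trans ?_
  calc ∑ i ∈ range p, S q (X ^ (q * i) * cyclotomic q ℤ) n ≤ ∑ i ∈ range p, 1 :=
        Finset.sum_le_sum fun i _ => S_X_pow_mul_le q _ 1 (S_phi_q hq) _ n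
    _ = p := by simp

theorem X_sub_one_mul_all (hp : p.Prime) (hq : q.Prime) (hpq : p ≠ q) :
    (X - 1) * (cyclotomic p ℤ * cyclotomic q ℤ * cyclotomic (p * q) ℤ) = X ^ (p * q) - 1 := by
  have e : (X - 1) * (cyclotomic p ℤ * cyclotomic q ℤ * cyclotomic (p * q) ℤ) =
      ((X - 1) * cyclotomic q ℤ) * (cyclotomic p ℤ * cyclotomic (p * q) ℤ) := by ring
  rw [e, X_sub_one_mul_phi hq, phi_p_mul hp hq hpq]
  have h := congrArg (expand ℤ q) (X_sub_one_mul_phi hp)
  rw [geomX hp, map_mul, map_sub, expand_X, map_one, map_sum, map_sub, map_pow, expand_X,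
    map_one] at h
  simp only [map_pow, expand_X, ← pow_mul] at h
  rw [h, mul_comm q p]

/-- A product over a subset of `{1, p, q, pq}` has class sums at most `p`. -/
theorem S_prod_le (hp : p.Prime) (hq : q.Prime) (hpq : p < q) (T : Finset ℕ)
    (hT : ∀ d ∈ T, d = 1 ∨ d = p ∨ d = q ∨ d = p * q) (n : ℕ) :
    S q (∏ d ∈ T, cyclotomic d ℤ) n ≤ p := by
  have hne : p ≠ q := hpq.ne
  have hp2 := hp.two_le
  have hq2 := hq.two_le
  have n1 : p ≠ 1 := by omega
  have n2 : q ≠ 1 := by omega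
  have n3 : p * q ≠ 1 := by
    intro h
    exact n1 (Nat.eq_one_of_mul_eq_one_right h)
  have n4 : p * q ≠ p := by
    intro h
    have : p * q = p * 1 := by omega
    exact n2 (Nat.eq_of_mul_eq_mul_left hp.pos this)
  have n5 : p * q ≠ q := by
    intro h
    have : p * q = 1 * q := by omega
    exact n1 (Nat.eq_of_mul_eq_mul_right hq.pos this)
  set g : ℕ → ℤ[X] := fun d => if d ∈ T then cyclotomic d ℤ else 1 with hg
  have key : ∏ d ∈ T, cyclotomic d ℤ = g 1 * (g p * g q * g (p * q)) := by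
    have hsub : T ⊆ ({1, p, q, p * q} : Finset ℕ) := by
      intro d hd
      simp only [mem_insert, mem_singleton]
      exact hT d hd
    have h1 : ∏ d ∈ T, cyclotomic d ℤ = ∏ d ∈ ({1, p, q, p * q} : Finset ℕ), g d := by
      rw [← Finset.prod_subset hsub]
      · exact Finset.prod_congr rfl fun d hd => by simp [hg, hd]
      · intro d _ hd
        simp [hg, hd]
    rw [h1, Finset.prod_insert, Finset.prod_insert, Finset.prod_insert, Finset.prod_singleton]
    · ring
    · simp only [mem_singleton]; exact n5.symm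
    · simp only [mem_insert, mem_singleton, not_or]; exact ⟨hne, n4.symm⟩
    · simp only [mem_insert, mem_singleton, not_or]; exact ⟨n1.symm, n2.symm, n3.symm⟩
  rw [key]
  simp only [hg]
  by_cases h1 : 1 ∈ T <;> by_cases h2 : p ∈ T <;> by_cases h3 : q ∈ T <;>
    by_cases h4 : p * q ∈ T <;>
    simp only [h1, h2, h3, h4, if_true, if_false, one_mul, mul_one, cyclotomic_one]
  · rw [X_sub_one_mul_all hp hq hne]
    have := S_one_sub (q := q) 1 (p * q) n (S_one_le hq.pos)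
    rw [mul_one] at this
    omega
  · rw [← mul_assoc, X_sub_one_mul_phi hp]
    have := S_one_sub (q := q) (cyclotomic q ℤ) p n (S_phi_q hq)
    omega
  · exact S_phi_one_p_pq hp hq hne n
  · rw [X_sub_one_mul_phi hp]
    have := S_one_sub (q := q) 1 p n (S_one_le hq.pos)
    rw [mul_one] at this
    omega
  · have := S_X_sub_one_mul_le q _ 1 (S_phi_q_phi_pq hp hq hne) n
    omega
  · rw [X_sub_one_mul_phi hq]
    have := S_one_sub (q := q) 1 q n (S_one_le hq.pos)
    rw [mul_one] at this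
    omega
  · exact S_X_sub_one_mul_cyclo_le_p hp hq hne n
  · have := S_X_sub_one_mul_le q 1 1 (S_one_le hq.pos) n
    rw [mul_one] at this
    omega
  · exact S_phi_p_q_pq hp hq hne n
  · exact S_phi_p_phi_q hp hq n
  · exact S_phi_p_phi_pq hp hq hne n
  · have := S_phi_p hp hpq n
    omega
  · have := S_phi_q_phi_pq hp hq hne n
    omega
  · have := S_phi_q hq n
    omega
  · exact S_cyclo_le_p hp hq hne n
  · have := S_one_le hq.pos n
    omega

end Pool.Agent.K9h2.BH
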