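import Pool.Agent.K9h2.BH.Basic

/-!
The residue class sums for `Φ_{pq}` and `(x - 1) Φ_{pq}`.
-/

set_option autoImplicit false

open Polynomial Finset

namespace Pool.Agent.K9h2.BH

/-- `kk q c m` is the remainder of `m c` modulo `q` (with `c` an inverse of `p` modulo `q`). -/
def kk (q c : ℕ) (m : ℤ) : ℤ := (m * c) % q

/-- `ee p q c m = (m - p * kk) / q`. -/
def ee (p q c : ℕ) (m : ℤ) : ℤ := (m - p * kk q c m) / q

variable {p q c : ℕ}

theorem kk_nonneg (hq : 0 < q) (m : ℤ) : 0 ≤ kk q c m :=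
  Int.emod_nonneg _ (by omega)

theorem kk_lt (hq : 0 < q) (m : ℤ) : kk q c m < q :=
  Int.emod_lt_of_pos _ (by exact_mod_cast hq)

theorem mul_ee (hq : 0 < q) (hc : ((c * p : ℕ) : ℤ) ≡ 1 [ZMOD q]) (m : ℤ) :
    (q : ℤ) * ee p q c m = m - p * kk q c m := by
  unfold ee
  apply Int.mul_ediv_cancel'
  have h1 : kk q c m ≡ m * c [ZMOD q] := Int.mod_modEq _ _
  have h2 : (p : ℤ) * kk q c m ≡ m [ZMOD q] := by
    calc (p : ℤ) * kk q c m ≡ p * (m * c) [ZMOD q] := h1.mul_left _
      _ = m * ((c * p : ℕ) : ℤ) := by push_cast; ring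
      _ ≡ m * 1 [ZMOD q] := hc.mul_left _
      _ = m := mul_one m
  exact h2.dvd

theorem kk_sub_q (m : ℤ) : kk q c (m - q) = kk q c m := by
  unfold kk
  rw [sub_mul, sub_eq_add_neg, ← mul_neg]
  exact Int.add_mul_emod_self_left _ _ _

theorem kk_sub_mul_q (m j : ℤ) : kk q c (m - q * j) = kk q c m := by
  unfold kk
  have : (m - q * j) * (c : ℤ) = m * c + q * (-(j * c)) := by ring
  rw [this]
  exact Int.add_mul_emod_self_left _ _ _

theorem ee_sub_mul_q (hq : 0 < q) (hc : ((c * p : ℕ) : ℤ) ≡ 1 [ZMOD q]) (m j : ℤ) :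
    ee p q c (m - q * j) = ee p q c m - j := by
  have h1 := mul_ee hq hc (m - q * j)
  have h2 := mul_ee hq hc m
  rw [kk_sub_mul_q] at h1
  have hq' : (q : ℤ) ≠ 0 := by exact_mod_cast hq.ne'
  apply mul_left_cancel₀ hq'
  rw [h1, mul_sub, h2]
  ring

theorem ee_neg_of_neg (hq : 0 < q) (hc : ((c * p : ℕ) : ℤ) ≡ 1 [ZMOD q]) {m : ℤ} (hm : m < 0) :
    ee p q c m < 0 := by
  have h1 := mul_ee hq hc m
  have h2 := kk_nonneg (c := c) hq m
  have h3 : (0 : ℤ) ≤ p * kk q c m := mul_nonneg (by positivity) h2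
  by_contra h
  push Not at h
  have : (0 : ℤ) ≤ q * ee p q c m := mul_nonneg (by positivity) h
  omega

/-- indicator of `ee ≥ 0` -/
def ss (p q c : ℕ) (m : ℤ) : ℤ := if 0 ≤ ee p q c m then 1 else 0

/-- indicator of `ee = 0` -/
def tt (p q c : ℕ) (m : ℤ) : ℤ := if ee p q c m = 0 then 1 else 0

theorem ss_sub (hq : 0 < q) (hc : ((c * p : ℕ) : ℤ) ≡ 1 [ZMOD q]) (m : ℤ) :
    ss p q c m = ss p q c (m - q) + tt p q c m := by
  have h : ee p q c (m - q) = ee p q c m - 1 := by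
    have := ee_sub_mul_q hq hc m 1
    rwa [mul_one] at this
  unfold ss tt
  rw [h]
  split_ifs <;> omega

theorem ss_neg (hq : 0 < q) (hc : ((c * p : ℕ) : ℤ) ≡ 1 [ZMOD q]) {m : ℤ} (hm : m < 0) :
    ss p q c m = 0 := by
  unfold ss
  rw [if_neg]
  have := ee_neg_of_neg hq hc hm
  omega

theorem tt_eq (hp : 0 < p) (hq : 0 < q) (hc : ((c * p : ℕ) : ℤ) ≡ 1 [ZMOD q]) (n : ℕ) :
    (∑ i ∈ range q, (X : ℤ[X]) ^ (p * i)).coeff n = tt p q c n := by
  rw [finsetSum_coeff]
  simp only [coeff_X_pow]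
  unfold tt
  have hq' : (q : ℤ) ≠ 0 := by exact_mod_cast hq.ne'
  split_ifs with h
  · have h1 := mul_ee hq hc (n : ℤ)
    rw [h, mul_zero] at h1
    have h2 := kk_nonneg (c := c) hq (n : ℤ)
    have h3 := kk_lt (c := c) hq (n : ℤ)
    obtain ⟨j, hj⟩ := Int.eq_ofNat_of_zero_le h2
    rw [hj] at h1 h3
    have hjq : j < q := by exact_mod_cast h3
    have hn : n = p * j := by
      have : (n : ℤ) = p * j := by linarith
      exact_mod_cast this
    rw [Finset.sum_eq_single j]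
    · rw [if_pos hn]
    · intro i _ hij
      rw [if_neg]
      intro hcon
      apply hij
      rw [hn] at hcon
      exact (Nat.eq_of_mul_eq_mul_left hp hcon).symm
    · intro hcon
      exact absurd (Finset.mem_range.2 hjq) hcon
  · refine Finset.sum_eq_zero fun i hi => ?_
    rw [if_neg]
    intro hn
    apply h
    have hi' := Finset.mem_range.1 hi
    have h1 := mul_ee hq hc (n : ℤ)
    have hk : kk q c (n : ℤ) = i := by
      unfold kk
      have h4 : ((n : ℤ) * c) ≡ i [ZMOD q] := by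
        rw [hn]
        calc (((p * i : ℕ) : ℤ) * c) = i * ((c * p : ℕ) : ℤ) := by push_cast; ring
          _ ≡ i * 1 [ZMOD q] := hc.mul_left _
          _ = i := mul_one _
      rw [h4]
      exact Int.emod_eq_of_lt (by positivity) (by exact_mod_cast hi')
    rw [hk, hn] at h1
    push_cast at h1
    rw [sub_self] at h1
    rcases mul_eq_zero.1 h1 with h5 | h5
    · exact absurd h5 hq'
    · rw [hn]; push_cast; exact h5

theorem cyclo_mul (hp : p.Prime) (hq : q.Prime) (hpq : p ≠ q) :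
    cyclotomic (p * q) ℤ * (X ^ q - 1) = (∑ i ∈ range q, (X : ℤ[X]) ^ (p * i)) * (X - 1) := by
  have h1 : expand ℤ p (cyclotomic q ℤ) = cyclotomic (q * p) ℤ * cyclotomic q ℤ :=
    cyclotomic_expand_eq_cyclotomic_mul hp (fun h => hpq ((Nat.prime_dvd_prime_iff_eq hp hq).1 h)) ℤ
  have h2 : expand ℤ p (cyclotomic q ℤ) = ∑ i ∈ range q, (X : ℤ[X]) ^ (p * i) := by
    haveI := Fact.mk hq
    rw [cyclotomic_prime, map_sum]
    refine Finset.sum_congr rfl fun i _ => ?_
    rw [map_pow, expand_X, ← pow_mul]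
  have h3 : cyclotomic q ℤ * (X - 1) = X ^ q - 1 := by
    haveI := Fact.mk hq
    exact cyclotomic_prime_mul_X_sub_one ℤ q
  rw [← h3, ← h2, h1, mul_comm q p]
  ring

theorem coeff_cyclo (hp : p.Prime) (hq : q.Prime) (hpq : p ≠ q)
    (hc : ((c * p : ℕ) : ℤ) ≡ 1 [ZMOD q]) (n : ℕ) :
    (cyclotomic (p * q) ℤ).coeff n = ss p q c n - ss p q c ((n : ℤ) - 1) := by
  induction n using Nat.strong_induction_on with
  | _ n ih =>
    have hq0 := hq.pos
    have hp0 := hp.pos
    have h := congrArg (fun f : ℤ[X] => f.coeff n) (cyclo_mul hp hq hpq)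
    simp only [mul_sub, mul_one, coeff_sub, coeff_mul_X_pow'] at h
    have h5 : ((∑ i ∈ range q, (X : ℤ[X]) ^ (p * i)) * X).coeff n =
        if 1 ≤ n then (∑ i ∈ range q, (X : ℤ[X]) ^ (p * i)).coeff (n - 1) else 0 := by
      have := coeff_mul_X_pow' (∑ i ∈ range q, (X : ℤ[X]) ^ (p * i)) 1 n
      rwa [pow_one] at this
    rw [h5, tt_eq hp0 hq0 hc, tt_eq hp0 hq0 hc] at h
    have e1 := ss_sub hq0 hc (n : ℤ)
    have e2 := ss_sub hq0 hc ((n : ℤ) - 1)
    by_cases hn : q ≤ n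
    · rw [if_pos hn, ih (n - q) (by omega)] at h
      rw [if_pos (by omega : 1 ≤ n)] at h
      have c1 : ((n - q : ℕ) : ℤ) = (n : ℤ) - q := by push_cast [hn]; ring
      have c2 : ((n - 1 : ℕ) : ℤ) = (n : ℤ) - 1 := by
        have : 1 ≤ n := by omega
        push_cast [this]; ring
      rw [c1, c2] at h
      have e3 : (n : ℤ) - q - 1 = (n : ℤ) - 1 - q := by ring
      rw [e3] at h
      linarith
    · rw [if_neg hn] at h
      have z1 : ss p q c ((n : ℤ) - q) = 0 := ss_neg hq0 hc (by omega)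
      have z2 : ss p q c ((n : ℤ) - 1 - q) = 0 := ss_neg hq0 hc (by omega)
      rw [z1] at e1
      rw [z2] at e2
      by_cases hn1 : 1 ≤ n
      · rw [if_pos hn1] at h
        have c2 : ((n - 1 : ℕ) : ℤ) = (n : ℤ) - 1 := by
          push_cast [hn1]; ring
        rw [c2] at h
        linarith
      · rw [if_neg hn1] at h
        have z3 : ss p q c ((n : ℤ) - 1) = 0 := ss_neg hq0 hc (by omega)
        rw [z3]
        linarith

theorem S_cyclo_le (hp : p.Prime) (hq : q.Prime) (hpq : p ≠ q)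
    (hc : ((c * p : ℕ) : ℤ) ≡ 1 [ZMOD q]) (n : ℕ) :
    S q (cyclotomic (p * q) ℤ) n ≤ (ee p q c n - ee p q c ((n : ℤ) - 1)).natAbs := by
  have hq0 := hq.pos
  set x := ee p q c (n : ℤ) with hx
  set y := ee p q c ((n : ℤ) - 1) with hy
  have hcard : (Finset.Ioc (min x y) (max x y)).card = (x - y).natAbs := by
    rw [Int.card_Ioc]
    rcases le_total x y with h | h
    · rw [min_eq_left h, max_eq_right h]; omega
    · rw [min_eq_right h, max_eq_left h]; omega
  rw [← hcard]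
  unfold S
  have hval : ∀ k ∈ (range (n + 1)).filter (q ∣ ·),
      ((cyclotomic (p * q) ℤ).coeff (n - k)).natAbs =
        if ((k / q : ℕ) : ℤ) ∈ Finset.Ioc (min x y) (max x y) then 1 else 0 := by
    intro k hk
    simp only [mem_filter, mem_range] at hk
    obtain ⟨hk1, j, rfl⟩ := hk
    rw [Nat.mul_div_cancel_left _ hq0, coeff_cyclo hp hq hpq hc]
    have c1 : ((n - q * j : ℕ) : ℤ) = (n : ℤ) - q * j := by
      have : q * j ≤ n := by omega
      push_cast [this]; ring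
    have c2 : (n : ℤ) - q * j - 1 = ((n : ℤ) - 1) - q * j := by ring
    rw [c1, c2]
    unfold ss
    rw [ee_sub_mul_q hq0 hc, ee_sub_mul_q hq0 hc, ← hx, ← hy]
    simp only [Finset.mem_Ioc, min_lt_iff, le_max_iff]
    split_ifs <;> omega
  rw [Finset.sum_congr rfl hval, ← Finset.card_filter]
  refine Finset.card_le_card_of_injOn (fun k => ((k / q : ℕ) : ℤ)) ?_ ?_
  · intro k hk
    simp only [coe_filter, Set.mem_setOf_eq] at hk
    exact_mod_cast hk.2
  · intro k hk l hl hkl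
    simp only [coe_filter, mem_filter, mem_range, Set.mem_setOf_eq] at hk hl
    simp only [Nat.cast_inj] at hkl
    obtain ⟨i, rfl⟩ := hk.1.2
    obtain ⟨j, rfl⟩ := hl.1.2
    rw [Nat.mul_div_cancel_left _ hq0, Nat.mul_div_cancel_left _ hq0] at hkl
    rw [hkl]

theorem ee_diff_bound (hp : 2 ≤ p) (hq : 2 ≤ q) (hcop : Nat.Coprime p q)
    (hc : ((c * p : ℕ) : ℤ) ≡ 1 [ZMOD q]) (m : ℤ) :
    (ee p q c m - ee p q c (m - 1)).natAbs + (ee p q c (m - 1) - ee p q c (m - 2)).natAbs ≤ p := by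
  have hq0 : 0 < q := by omega
  have h1 := mul_ee hq0 hc m
  have h2 := mul_ee hq0 hc (m - 1)
  have h3 := mul_ee hq0 hc (m - 2)
  have a1 := kk_nonneg (c := c) hq0 m
  have a2 := kk_lt (c := c) hq0 m
  have b1 := kk_nonneg (c := c) hq0 (m - 1)
  have b2 := kk_lt (c := c) hq0 (m - 1)
  have c1 := kk_nonneg (c := c) hq0 (m - 2)
  have c2 := kk_lt (c := c) hq0 (m - 2)
  generalize ee p q c m = x at *
  generalize ee p q c (m - 1) = y at *
  generalize ee p q c (m - 2) = z at *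
  generalize kk q c m = u at *
  generalize kk q c (m - 1) = v at *
  generalize kk q c (m - 2) = w at *
  have hP : (2 : ℤ) ≤ p := by exact_mod_cast hp
  have hQ : (2 : ℤ) ≤ q := by exact_mod_cast hq
  have hcop' : IsCoprime (q : ℤ) (p : ℤ) := (Nat.isCoprime_iff_coprime.2 hcop).symm
  generalize hPe : (p : ℤ) = P at *
  generalize hQe : (q : ℤ) = Q at *
  -- bound for the sum
  have hs1 : x - z ≤ P := by
    by_contra hcon
    push Not at hcon
    have e1 : Q * (x - z) = 2 - P * (u - w) := by linarith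
    have e2 : Q * (P + 1) ≤ Q * (x - z) := by nlinarith
    have e3 : -(P * (u - w)) ≤ P * (Q - 1) := by nlinarith
    nlinarith
  have hs2 : -P ≤ x - z := by
    by_contra hcon
    push Not at hcon
    have e1 : Q * (x - z) = 2 - P * (u - w) := by linarith
    have e2 : Q * (x - z) ≤ Q * (-P - 1) := by nlinarith
    have e3 : P * (u - w) ≤ P * (Q - 1) := by nlinarith
    nlinarith
  -- bound for the difference
  have hd : -P ≤ x - 2 * y + z ∧ x - 2 * y + z ≤ P := by
    have e1 : Q * (x - 2 * y + z) = -(P * (u - 2 * v + w)) := by linarith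
    have e2 : Q ∣ P * (u - 2 * v + w) := ⟨-(x - 2 * y + z), by linarith⟩
    obtain ⟨t, ht⟩ := hcop'.dvd_of_dvd_mul_left e2
    have hQ0 : Q ≠ 0 := by omega
    have e3 : x - 2 * y + z = -(P * t) := by
      apply mul_left_cancel₀ hQ0
      rw [e1, ht]; ring
    have t1 : t ≤ 1 := by
      by_contra hcon
      push Not at hcon
      have : Q * 2 ≤ Q * t := by nlinarith
      linarith
    have t2 : -1 ≤ t := by
      by_contra hcon
      push Not at hcon
      have : Q * t ≤ Q * (-2) := by nlinarith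
      linarith
    rw [e3]
    constructor <;> nlinarith
  have : (((x - y).natAbs + (y - z).natAbs : ℕ) : ℤ) ≤ P := by
    push_cast
    rcases abs_cases (x - y) with ⟨h, _⟩ | ⟨h, _⟩ <;>
      rcases abs_cases (y - z) with ⟨h', _⟩ | ⟨h', _⟩ <;> rw [h, h'] <;> omega
  rw [← hPe] at this
  exact_mod_cast this

/-- The class sums of `Φ_{pq}` are at most `p`. -/
theorem S_cyclo_le_p (hp : p.Prime) (hq : q.Prime) (hpq : p ≠ q) (n : ℕ) :
    S q (cyclotomic (p * q) ℤ) n ≤ p := by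
  have hcop : Nat.Coprime p q := (Nat.coprime_primes hp hq).2 hpq
  obtain ⟨c, hc⟩ := Nat.exists_mul_mod_eq_one_of_coprime hcop hq.one_lt
  have hc' : ((c * p : ℕ) : ℤ) ≡ 1 [ZMOD q] := by
    have : p * c ≡ 1 [MOD q] := by
      unfold Nat.ModEq
      rw [hc.2, Nat.mod_eq_of_lt hq.one_lt]
    have h2 := (Int.natCast_modEq_iff).2 this
    rw [mul_comm c p]
    exact_mod_cast h2
  have h1 := S_cyclo_le hp hq hpq hc' n
  have h2 := ee_diff_bound hp.two_le hq.two_le hcop hc' (n : ℤ)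
  omega

/-- The class sums of `(x - 1) Φ_{pq}` are at most `p`. -/
theorem S_X_sub_one_mul_cyclo_le_p (hp : p.Prime) (hq : q.Prime) (hpq : p ≠ q) (n : ℕ) :
    S q ((X - 1) * cyclotomic (p * q) ℤ) n ≤ p := by
  have hcop : Nat.Coprime p q := (Nat.coprime_primes hp hq).2 hpq
  obtain ⟨c, hc⟩ := Nat.exists_mul_mod_eq_one_of_coprime hcop hq.one_lt
  have hc' : ((c * p : ℕ) : ℤ) ≡ 1 [ZMOD q] := by
    have : p * c ≡ 1 [MOD q] := by
      unfold Nat.ModEq
      rw [hc.2, Nat.mod_eq_of_lt hq.one_lt]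
    have h2 := (Int.natCast_modEq_iff).2 this
    rw [mul_comm c p]
    exact_mod_cast h2
  have h0 : S q ((X - 1) * cyclotomic (p * q) ℤ) n ≤
      S q (X ^ 1 * cyclotomic (p * q) ℤ) n + S q (cyclotomic (p * q) ℤ) n := by
    rw [sub_mul, one_mul, pow_one]
    exact S_sub _ _ _ _
  have h1 := S_cyclo_le hp hq hpq hc' n
  have h2 := ee_diff_bound hp.two_le hq.two_le hcop hc' (n : ℤ)
  rw [S_X_pow_mul] at h0
  split_ifs at h0 with hn
  · have h3 := S_cyclo_le hp hq hpq hc' (n - 1)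
    have c2 : ((n - 1 : ℕ) : ℤ) = (n : ℤ) - 1 := by
      push_cast [hn]; ring
    rw [c2] at h3
    have e : (n : ℤ) - 1 - 1 = (n : ℤ) - 2 := by ring
    rw [e] at h3
    omega
  · omega

end Pool.Agent.K9h2.BH
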